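import Pool.Agent.W553.RCD.Fin

/-!
# A noncollapsed RCD(N-1,N) space with boundary and radius larger than `π/2`

The example is the product of a closed hemisphere and a sphere, both of dimension two and of radius
`1/√3` (curvature three), with `N = 4`.
-/

open MeasureTheory Pool.Agent.W553.RCD

namespace Pool.Agent.Results.MP_4a2bad_gt.HemisphereTimesSphere

/-- There are an integer `N ≥ 2` and a compact noncollapsed RCD(N-1,N) space with nonempty boundary
whose radius is larger than `π/2`. -/
theorem result :
    ∃ (N : ℕ) (X : Type) (_ : MetricSpace X) (_ : MeasurableSpace X) (_ : BorelSpace X),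
      2 ≤ N ∧ CompactSpace X ∧ IsNoncollapsedRCD X ((N : ℝ) - 1) N ∧ (Boundary X N).Nonempty ∧
        ENNReal.ofReal (Real.pi / 2) < radius X := by
  refine ⟨4, XX, inferInstance, inferInstance, inferInstance, by norm_num, inferInstance, ?_,
    Pool.Agent.W342.RCD.S_K4_holds, XX_radius⟩
  have h : ((4 : ℕ) : ℝ) - 1 = 3 := by norm_num
  rw [h]
  exact XX_isRCD

end Pool.Agent.Results.MP_4a2bad_gt.HemisphereTimesSphere
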